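import Mathlib

/-! A lower bound for a sum of logarithms from a quadratic count. -/

set_option autoImplicit false

namespace Pool.Agent.K9h72.NA

open Finset

/-- If at most `K B²` elements have value at most `B`, then the reciprocals have a small sum. -/
lemma sum_inv_le {ι : Type*} (s : Finset ι) (Y : ι → ℕ) (K : ℝ)
    (hY : ∀ a ∈ s, 1 ≤ Y a)
    (hc : ∀ B : ℕ, 1 ≤ B → (((s.filter (fun a => Y a ≤ B)).card : ℕ) : ℝ) ≤ K * (B : ℝ) ^ 2) (T : ℕ) :
    ∑ a ∈ s, 1 / (Y a : ℝ) ≤ s.card / ((T : ℝ) + 1) + K * T := by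
  classical
  have key : ∀ T : ℕ, ∑ a ∈ s.filter (fun a => Y a ≤ T), 1 / (Y a : ℝ)
      + ((s.card : ℝ) - (s.filter (fun a => Y a ≤ T)).card) / ((T : ℝ) + 1)
      ≤ s.card / ((T : ℝ) + 1) + K * T := by
    intro T
    induction T with
    | zero =>
      have h0 : s.filter (fun a => Y a ≤ 0) = ∅ := by
        apply Finset.filter_eq_empty_iff.2
        intro a ha
        have := hY a ha
        omega
      rw [h0]
      simp
    | succ T ih =>
      have hsp : s.filter (fun a => Y a ≤ T + 1) = s.filter (fun a => Y a ≤ T) ∪ s.filter (fun a => Y a = T + 1) := by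
        ext a
        simp only [mem_filter, mem_union]
        constructor
        · rintro ⟨h1, h2⟩
          by_cases h : Y a = T + 1
          · right; exact ⟨h1, h⟩
          · left; exact ⟨h1, by omega⟩
        · rintro (⟨h1, h2⟩ | ⟨h1, h2⟩)
          · exact ⟨h1, by omega⟩
          · exact ⟨h1, by omega⟩
      have hdis : Disjoint (s.filter (fun a => Y a ≤ T)) (s.filter (fun a => Y a = T + 1)) := by
        rw [Finset.disjoint_filter]
        intro a _ h1 h2
        omega
      have hcard : (s.filter (fun a => Y a ≤ T + 1)).card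
          = (s.filter (fun a => Y a ≤ T)).card + (s.filter (fun a => Y a = T + 1)).card := by
        rw [hsp, Finset.card_union_of_disjoint hdis]
      have hsum : ∑ a ∈ s.filter (fun a => Y a = T + 1), 1 / (Y a : ℝ)
          = (s.filter (fun a => Y a = T + 1)).card / ((T : ℝ) + 1) := by
        rw [Finset.sum_congr rfl (g := fun _ => 1 / ((T : ℝ) + 1))]
        · rw [Finset.sum_const, nsmul_eq_mul]
          ring
        · intro a ha
          rw [mem_filter] at ha
          rw [ha.2]
          push_cast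
          ring
      have hcT := hc (T + 1) (by omega)
      rw [hcard] at hcT ⊢
      rw [hsp, Finset.sum_union hdis, hsum]
      set A : ℝ := ((s.filter (fun a => Y a ≤ T)).card : ℝ) with hA
      set C : ℝ := ((s.filter (fun a => Y a = T + 1)).card : ℝ) with hC
      set S : ℝ := ∑ a ∈ s.filter (fun a => Y a ≤ T), 1 / (Y a : ℝ) with hS
      push_cast at hcT ⊢
      set t : ℝ := (T : ℝ) with ht
      have ht0 : 0 ≤ t := by positivity
      have h1 : S ≤ s.card / (t + 1) + K * t - (s.card - A) / (t + 1) := by linarith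
      have h2 : S + C / (t + 1) + (s.card - (A + C)) / (t + 1 + 1)
          ≤ s.card / (t + 1) + K * t - (s.card - A) / (t + 1) + C / (t + 1) + (s.card - (A + C)) / (t + 1 + 1) := by
        linarith
      refine h2.trans ?_
      have h3 : (s.card : ℝ) / (t + 1) + K * t - (s.card - A) / (t + 1) + C / (t + 1) + (s.card - (A + C)) / (t + 1 + 1)
          = s.card / (t + 1 + 1) + K * t + (A + C) / ((t + 1) * (t + 1 + 1)) := by
        field_simp
        ring
      rw [h3]
      have h4 : (A + C) / ((t + 1) * (t + 1 + 1)) ≤ K := by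
        rw [div_le_iff₀ (by positivity)]
        have hK : 0 ≤ K := by
          have : 0 ≤ K * (t + 1) ^ 2 := le_trans (by positivity) hcT
          have h5 : 0 < (t + 1) ^ 2 := by positivity
          exact nonneg_of_mul_nonneg_left this h5
        nlinarith
      linarith
  refine le_trans ?_ (key T)
  have hsp := Finset.sum_filter_add_sum_filter_not s (fun a => Y a ≤ T) (fun a => 1 / (Y a : ℝ))
  rw [← hsp]
  have hcard := Finset.card_filter_add_card_filter_not (s := s) (fun a => Y a ≤ T)
  have hcard' : ((s.card : ℝ) - (s.filter (fun a => Y a ≤ T)).card) = (s.filter (fun a => ¬ Y a ≤ T)).card := by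
    rw [← hcard]; push_cast; ring
  rw [hcard']
  gcongr
  calc ∑ a ∈ s.filter (fun a => ¬ Y a ≤ T), 1 / (Y a : ℝ)
      ≤ ∑ a ∈ s.filter (fun a => ¬ Y a ≤ T), 1 / ((T : ℝ) + 1) := by
        apply Finset.sum_le_sum
        intro a ha
        rw [mem_filter] at ha
        apply one_div_le_one_div_of_le (by positivity)
        have : T + 1 ≤ Y a := by omega
        exact_mod_cast this
    _ = _ := by
        rw [Finset.sum_const, nsmul_eq_mul]; ring

/-- average of the logarithm from below -/
theorem sum_log_ge {ι : Type*} (s : Finset ι) (Y : ι → ℕ) (K : ℝ) (hK : 0 < K) (hs : s.Nonempty)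
    (hY : ∀ a ∈ s, 1 ≤ Y a)
    (hc : ∀ B : ℕ, 1 ≤ B → (((s.filter (fun a => Y a ≤ B)).card : ℕ) : ℝ) ≤ K * (B : ℝ) ^ 2) :
    (s.card : ℝ) * (1 / 2 * Real.log s.card - Real.log (2 * Real.sqrt K))
      ≤ ∑ a ∈ s, Real.log (Y a) := by
  set M : ℝ := (s.card : ℝ) with hM
  have hM0 : 0 < M := by
    have : 0 < s.card := Finset.card_pos.2 hs
    rw [hM]; exact_mod_cast this
  set x : ℝ := Real.sqrt (M / K) with hx
  have hx0 : 0 < x := Real.sqrt_pos.2 (by positivity)
  set T : ℕ := ⌊x⌋₊ with hT
  have hT1 : (T : ℝ) ≤ x := Nat.floor_le hx0.le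
  have hT2 : x < T + 1 := Nat.lt_floor_add_one x
  have h1 := sum_inv_le s Y K hY hc T
  have hsK : 0 < Real.sqrt K := Real.sqrt_pos.2 hK
  have hsM : 0 < Real.sqrt M := Real.sqrt_pos.2 hM0
  have hxe : x = Real.sqrt M / Real.sqrt K := by rw [hx, Real.sqrt_div hM0.le]
  have h2 : ∑ a ∈ s, 1 / (Y a : ℝ) ≤ 2 * Real.sqrt K * Real.sqrt M := by
    refine h1.trans ?_
    have h3 : M / ((T : ℝ) + 1) ≤ M / x := by gcongr
    have h4 : M / x = Real.sqrt K * Real.sqrt M := by
      rw [hxe]
      field_simp
      rw [Real.sq_sqrt hM0.le]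
    have h5 : K * T ≤ K * x := by gcongr
    have h6 : K * x = Real.sqrt K * Real.sqrt M := by
      rw [hxe]
      have : K = Real.sqrt K * Real.sqrt K := (Real.mul_self_sqrt hK.le).symm
      field_simp
      nlinarith [this]
    linarith
  -- tangent line
  set c : ℝ := Real.sqrt M / (2 * Real.sqrt K) with hcdef
  have hc0 : 0 < c := by positivity
  have h7 : ∀ a ∈ s, Real.log c + 1 - c * (1 / (Y a : ℝ)) ≤ Real.log (Y a) := by
    intro a ha
    have hy : (0 : ℝ) < Y a := by
      have := hY a ha
      exact_mod_cast this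
    have h8 := Real.log_le_sub_one_of_pos (show 0 < c / (Y a : ℝ) by positivity)
    rw [Real.log_div hc0.ne' hy.ne'] at h8
    have : c / (Y a : ℝ) = c * (1 / (Y a : ℝ)) := by ring
    linarith
  have h9 := Finset.sum_le_sum h7
  rw [Finset.sum_sub_distrib, Finset.sum_const, ← Finset.mul_sum, nsmul_eq_mul] at h9
  have h10 : c * ∑ a ∈ s, 1 / (Y a : ℝ) ≤ M := by
    calc c * ∑ a ∈ s, 1 / (Y a : ℝ) ≤ c * (2 * Real.sqrt K * Real.sqrt M) := by gcongr
      _ = Real.sqrt M * Real.sqrt M := by
          rw [hcdef]; field_simp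
      _ = M := Real.mul_self_sqrt hM0.le
  have h11 : Real.log c = 1 / 2 * Real.log M - Real.log (2 * Real.sqrt K) := by
    rw [hcdef, Real.log_div hsM.ne' (by positivity), Real.log_sqrt hM0.le]
    ring
  rw [← h11]
  rw [← hM] at h9
  linarith

end Pool.Agent.K9h72.NA
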