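import Pool.Agent.K9h72.NA.Lattice
import Pool.Agent.K9h72.NA.LogSum

/-! Counting residues with a small fraction or a short lattice vector. -/

set_option autoImplicit false

namespace Pool.Agent.K9h72.NA

open Finset

/-- few residues have small size -/
lemma card_size_le (N n B : ℕ) :
    ((range (N ^ n)).filter (fun α => size N (N ^ n) α ≤ B)).card ≤ 3 * B ^ 2 := by
  classical
  set M := N ^ n with hM
  have hex : ∀ α ∈ (range M).filter (fun α => size N M α ≤ B), ∃ q : ℤ × ℤ,
      q ∈ (Icc (-(B : ℤ)) B) ×ˢ (Icc (1 : ℤ) B) ∧ IsCoprime q.2 (M : ℤ) ∧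
        (M : ℤ) ∣ q.2 * (α : ℤ) - q.1 := by
    intro α hα
    rw [mem_filter] at hα
    obtain ⟨f, g, h0, _, h2, h3, hm⟩ := size_mem N M α
    refine ⟨(f, g), ?_, ?_, h3⟩
    · rw [mem_product, mem_Icc, mem_Icc]
      have := hα.2
      rw [hm] at this
      have h4 : f.natAbs ≤ B := le_trans (le_max_left _ _) this
      have h5 : g.natAbs ≤ B := le_trans (le_max_right _ _) this
      refine ⟨⟨?_, ?_⟩, ?_, ?_⟩ <;> simp only <;> omega
    · rw [hM]; push_cast; exact h2.pow_right
  choose! q hq using hex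
  have hinj : Set.InjOn q ((range M).filter (fun α => size N M α ≤ B) : Finset ℕ) := by
    intro α hα β hβ hab
    have h1 := hq α hα
    have h2 := hq β hβ
    rw [hab] at h1
    have h3 : (M : ℤ) ∣ (q β).2 * ((α : ℤ) - β) := by
      have : (q β).2 * ((α : ℤ) - β) = ((q β).2 * (α : ℤ) - (q β).1) - ((q β).2 * (β : ℤ) - (q β).1) := by ring
      rw [this]
      exact dvd_sub h1.2.2 h2.2.2
    have h4 : (M : ℤ) ∣ (α : ℤ) - β := h2.2.1.symm.dvd_of_dvd_mul_left h3
    have hα' : α < M := by
      have := (mem_filter.1 (Finset.mem_coe.1 hα)).1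
      exact mem_range.1 this
    have hβ' : β < M := by
      have := (mem_filter.1 (Finset.mem_coe.1 hβ)).1
      exact mem_range.1 this
    have h5 : (α : ℤ) - β = 0 := by
      apply Int.eq_zero_of_abs_lt_dvd h4
      rw [abs_lt]; constructor <;> omega
    omega
  have hcard := Finset.card_le_card_of_injOn q (fun α hα => (hq α hα).1) hinj
  rw [card_product, Int.card_Icc, Int.card_Icc] at hcard
  refine hcard.trans ?_
  have e1 : ((B : ℤ) + 1 - -(B : ℤ)).toNat = 2 * B + 1 := by omega
  have e2 : ((B : ℤ) + 1 - 1).toNat = B := by omega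
  rw [e1, e2]
  rcases Nat.eq_zero_or_pos B with h | h
  · subst h; simp
  · nlinarith

/-- at most `2B/g+1` numbers `α` have `α g` within `B` of a given number -/
lemma card_near_le (M g B : ℕ) (k : ℤ) (hg : 1 ≤ g) :
    ((range M).filter (fun α : ℕ => |(α : ℤ) * g - k| ≤ B)).card ≤ 2 * B / g + 1 := by
  classical
  set S := (range M).filter (fun α : ℕ => |(α : ℤ) * g - k| ≤ B) with hS
  rcases S.eq_empty_or_nonempty with h | h
  · rw [h]; simp
  · set m := S.min' h with hm
    have hsub : S ⊆ Icc m (m + 2 * B / g) := by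
      intro α hα
      have h1 := Finset.min'_le S α hα
      have h2 := Finset.min'_mem S h
      rw [← hm] at h1 h2
      rw [mem_Icc]
      refine ⟨h1, ?_⟩
      have h3 := (mem_filter.1 hα).2
      have h4 := (mem_filter.1 h2).2
      rw [abs_le] at h3 h4
      have h5 : ((α - m : ℕ) : ℤ) * g ≤ 2 * B := by
        push_cast [h1]
        nlinarith
      have h6 : (α - m) * g ≤ 2 * B := by exact_mod_cast h5
      have h7 : α - m ≤ 2 * B / g := (Nat.le_div_iff_mul_le (by omega)).2 h6
      omega
    refine (card_le_card hsub).trans ?_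
    rw [Nat.card_Icc]
    generalize 2 * B / g = x
    omega

/-- few residues have a short lattice vector -/
lemma card_mu_le (M B : ℕ) (hM : 1 ≤ M) (hB : 1 ≤ B) :
    ((range M).filter (fun α => mu M α ≤ B)).card ≤ 6 * B ^ 2 := by
  classical
  by_cases hBM : M ≤ B
  · calc ((range M).filter (fun α => mu M α ≤ B)).card ≤ (range M).card := card_filter_le _ _
      _ = M := card_range M
      _ ≤ 6 * B ^ 2 := by nlinarith
  push Not at hBM
  have hsub : (range M).filter (fun α => mu M α ≤ B) ⊆
      (Icc 1 B).biUnion (fun g => (range (g + 1)).biUnion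
        (fun k => (range M).filter (fun α : ℕ => |(α : ℤ) * g - ((k * M : ℕ) : ℤ)| ≤ B))) := by
    intro α hα
    rw [mem_filter, mem_range] at hα
    obtain ⟨u, g, hne, ⟨k, hk⟩, hm⟩ := mu_mem M α
    have hαB := hα.2
    rw [hm] at hαB
    -- wlog g ≥ 0
    obtain ⟨u, g, k, hne, hk, hu, hg, hg0⟩ : ∃ u g k : ℤ, (u, g) ≠ (0, 0) ∧ (α : ℤ) * g - u = M * k ∧
        u.natAbs ≤ B ∧ g.natAbs ≤ B ∧ 0 ≤ g := by
      have h1 : u.natAbs ≤ B := le_trans (le_max_left _ _) hαB
      have h2 : g.natAbs ≤ B := le_trans (le_max_right _ _) hαB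
      rcases le_total 0 g with h | h
      · exact ⟨u, g, k, hne, hk, h1, h2, h⟩
      · refine ⟨-u, -g, -k, ?_, by linarith, by omega, by omega, by omega⟩
        intro h3
        have h3' : -u = 0 ∧ -g = 0 := by simpa [Prod.mk.injEq] using h3
        exact hne (by rw [neg_eq_zero.1 h3'.1, neg_eq_zero.1 h3'.2])
    have hg1 : 1 ≤ g := by
      by_contra hc
      have hg00 : g = 0 := by omega
      rw [hg00] at hk
      have h1 : (M : ℤ) ∣ u := ⟨-k, by linarith⟩
      have h2 : u = 0 := by
        apply Int.eq_zero_of_abs_lt_dvd h1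
        rw [abs_lt]
        constructor <;> omega
      exact hne (by rw [h2, hg00])
    have hαM : (α : ℤ) < M := by exact_mod_cast hα.1
    have hMz : (0 : ℤ) < M := by exact_mod_cast hM
    have hBMz : (B : ℤ) < M := by exact_mod_cast hBM
    have hk0 : 0 ≤ k := by
      by_contra hc
      have hk1 : k ≤ -1 := by omega
      have h1 : (M : ℤ) * k ≤ -M := by nlinarith
      have h2 : (0 : ℤ) ≤ α * g := by positivity
      omega
    have hkg : k ≤ g := by
      by_contra hc
      have hk1 : g + 1 ≤ k := by omega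
      have h1 : (M : ℤ) * (g + 1) ≤ M * k := by nlinarith
      have h2 : (α : ℤ) * g ≤ M * g := by nlinarith
      have h3 : (M : ℤ) * (g + 1) = M * g + M := by ring
      omega
    rw [mem_biUnion]
    refine ⟨g.toNat, mem_Icc.2 ⟨by omega, by omega⟩, ?_⟩
    rw [mem_biUnion]
    refine ⟨k.toNat, mem_range.2 (by omega), ?_⟩
    rw [mem_filter]
    refine ⟨mem_range.2 hα.1, ?_⟩
    have e1 : ((g.toNat : ℕ) : ℤ) = g := Int.toNat_of_nonneg hg0
    have e2 : ((k.toNat : ℕ) : ℤ) = k := Int.toNat_of_nonneg hk0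
    push_cast
    rw [e1, e2]
    have : (α : ℤ) * g - k * M = u := by linarith
    rw [this, abs_le]
    constructor <;> omega
  refine (card_le_card hsub).trans ?_
  refine (card_biUnion_le).trans ?_
  have h1 : ∀ g ∈ Icc 1 B, ((range (g + 1)).biUnion
        (fun k => (range M).filter (fun α : ℕ => |(α : ℤ) * g - ((k * M : ℕ) : ℤ)| ≤ B))).card ≤ 6 * B := by
    intro g hg
    rw [mem_Icc] at hg
    refine (card_biUnion_le).trans ?_
    refine (Finset.sum_le_card_nsmul _ _ (2 * B / g + 1) (fun k _ => card_near_le M g B _ hg.1)).trans ?_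
    rw [card_range, smul_eq_mul]
    have h2 : g * (2 * B / g) ≤ 2 * B := Nat.mul_div_le _ _
    have h3 : 2 * B / g ≤ 2 * B := Nat.div_le_self _ _
    nlinarith
  refine (Finset.sum_le_card_nsmul _ _ (6 * B) h1).trans ?_
  rw [Nat.card_Icc, smul_eq_mul]
  have : B + 1 - 1 = B := by omega
  rw [this]
  nlinarith

/-- upper and lower bounds of the sum of the logarithms of the sizes -/
theorem sum_log_size_ge (N n : ℕ) (hN : 2 ≤ N) :
    ((N ^ n : ℕ) : ℝ) * (1 / 2 * (n * Real.log N) - Real.log (2 * Real.sqrt 3))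
      ≤ ∑ α ∈ range (N ^ n), Real.log (size N (N ^ n) α) := by
  have hM : 1 ≤ N ^ n := Nat.one_le_pow _ _ (by omega)
  have h := sum_log_ge (range (N ^ n)) (fun α => size N (N ^ n) α) 3 (by norm_num)
    ⟨0, mem_range.2 (by omega)⟩ (fun α _ => size_pos N (N ^ n) α)
    (fun B _ => by
      have := card_size_le N n B
      exact_mod_cast this)
  rw [card_range] at h
  have e : Real.log ((N ^ n : ℕ) : ℝ) = n * Real.log N := by
    push_cast; rw [Real.log_pow]
  rw [e] at h
  exact h

theorem sum_log_size_le (N n : ℕ) (hN : 2 ≤ N) :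
    ∑ α ∈ range (N ^ n), Real.log (size N (N ^ n) α) ≤ ((N ^ n : ℕ) : ℝ) * (1 / 2 * (n * Real.log N)
      + Real.log (2 * ((N.primeFactors.card + 1) * 2 ^ N.primeFactors.card)) + Real.log (2 * Real.sqrt 6)) := by
  have hM : 1 ≤ N ^ n := Nat.one_le_pow _ _ (by omega)
  have h := sum_log_ge (range (N ^ n)) (fun α => mu (N ^ n) α) 6 (by norm_num)
    ⟨0, mem_range.2 (by omega)⟩ (fun α _ => mu_pos (N ^ n) α)
    (fun B hB => by
      have := card_mu_le (N ^ n) B hM hB
      exact_mod_cast this)
  rw [card_range] at h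
  have e : Real.log ((N ^ n : ℕ) : ℝ) = n * Real.log N := by
    push_cast; rw [Real.log_pow]
  rw [e] at h
  set C : ℝ := 2 * ((N.primeFactors.card + 1) * 2 ^ N.primeFactors.card) with hC
  have hC0 : 0 < C := by positivity
  have hN0 : (0 : ℝ) < N := by
    have : 0 < N := by omega
    exact_mod_cast this
  have h1 : ∀ α ∈ range (N ^ n), Real.log (size N (N ^ n) α) ≤
      Real.log C + n * Real.log N - Real.log (mu (N ^ n) α) := by
    intro α _
    have h2 := size_mul_mu_le N n α hN
    have h3 : (size N (N ^ n) α : ℝ) * mu (N ^ n) α ≤ C * (N : ℝ) ^ n := by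
      rw [hC]; exact_mod_cast h2
    have h4 : (0 : ℝ) < size N (N ^ n) α := by
      have := size_pos N (N ^ n) α
      exact_mod_cast this
    have h5 : (0 : ℝ) < mu (N ^ n) α := by
      have := mu_pos (N ^ n) α
      exact_mod_cast this
    have h6 := Real.log_le_log (by positivity) h3
    rw [Real.log_mul h4.ne' h5.ne', Real.log_mul hC0.ne' (by positivity), Real.log_pow] at h6
    linarith
  have h2 := Finset.sum_le_sum h1
  rw [Finset.sum_sub_distrib, Finset.sum_const, card_range, nsmul_eq_mul] at h2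
  linarith

end Pool.Agent.K9h72.NA
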