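import Pool.Agent.K9h72.NA.Lattice

/-! Extending a finite sequence to the digit sequence of a given fraction. -/

set_option autoImplicit false

namespace Pool.Agent.K9h72.NA

open Finset

/-- next digit -/
def dig (N : ℕ) (h r : ℤ) : ℤ := (-(r * h)) % N

/-- the sequence of remainders -/
def rem (N : ℕ) (g h r : ℤ) : ℕ → ℤ
  | 0 => r
  | (j + 1) => (rem N g h r j + g * dig N h (rem N g h r j)) / N

lemma dig_nonneg (N : ℕ) (hN : 2 ≤ N) (h r : ℤ) : 0 ≤ dig N h r := Int.emod_nonneg _ (by omega)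

lemma dig_lt (N : ℕ) (hN : 2 ≤ N) (h r : ℤ) : dig N h r < N := Int.emod_lt_of_pos _ (by omega)

lemma dvd_dig (N : ℕ) (g h r : ℤ) (hgh : (N : ℤ) ∣ g * h - 1) :
    (N : ℤ) ∣ r + g * dig N h r := by
  have h1 : (N : ℤ) ∣ -(r * h) - dig N h r := Int.dvd_self_sub_emod
  have h2 : r + g * dig N h r = -(g * (-(r * h) - dig N h r)) - r * (g * h - 1) := by ring
  rw [h2]
  exact dvd_sub ((dvd_neg).2 (Dvd.dvd.mul_left h1 g)) (Dvd.dvd.mul_left hgh r)

lemma rem_succ (N : ℕ) (g h r : ℤ) (hgh : (N : ℤ) ∣ g * h - 1) (j : ℕ) :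
    (N : ℤ) * rem N g h r (j + 1) = rem N g h r j + g * dig N h (rem N g h r j) := by
  rw [rem]
  exact Int.mul_ediv_cancel' (dvd_dig N g h _ hgh)

/-- extension of a finite digit string so that the value is `f / g` -/
theorem exists_extension (N n : ℕ) (hN : 2 ≤ N) (a : Fin n → Fin N) (f g : ℤ)
    (hg : IsCoprime g (N : ℤ))
    (hd : ((N ^ n : ℕ) : ℤ) ∣ g * ((∑ i, (a i : ℕ) * N ^ (i : ℕ) : ℕ) : ℤ) - f) :
    ∃ b : ℕ → Fin N, (∀ i : Fin n, b i = a i) ∧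
      ∀ k : ℕ, (N : ℤ) ^ k ∣ g * ∑ i ∈ range k, ((b i : ℕ) : ℤ) * (N : ℤ) ^ i - f := by
  obtain ⟨h, y, hxy⟩ := hg
  have hgh : (N : ℤ) ∣ g * h - 1 := ⟨-y, by linear_combination hxy⟩
  obtain ⟨r, hr⟩ := hd
  let b : ℕ → Fin N := fun i => if hi : i < n then a ⟨i, hi⟩ else
    ⟨(dig N h (rem N g h r (i - n))).toNat, by
      have h1 := dig_lt N hN h (rem N g h r (i - n))
      have h2 := dig_nonneg N hN h (rem N g h r (i - n))
      omega⟩
  have hb1 : ∀ i : Fin n, b i = a i := by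
    intro i
    simp only [b]
    rw [dif_pos i.2]
  have hb2 : ∀ j : ℕ, ((b (n + j) : ℕ) : ℤ) = dig N h (rem N g h r j) := by
    intro j
    simp only [b]
    rw [dif_neg (by omega)]
    simp only
    rw [Int.toNat_of_nonneg (dig_nonneg N hN h _)]
    congr 2
    omega
  have hs0 : ∑ i ∈ range n, ((b i : ℕ) : ℤ) * (N : ℤ) ^ i = ((∑ i, (a i : ℕ) * N ^ (i : ℕ) : ℕ) : ℤ) := by
    rw [Finset.sum_range]
    push_cast
    apply Finset.sum_congr rfl
    intro i _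
    rw [hb1 i]
  have hbig : ∀ j : ℕ, g * ∑ i ∈ range (n + j), ((b i : ℕ) : ℤ) * (N : ℤ) ^ i - f
      = (N : ℤ) ^ (n + j) * rem N g h r j := by
    intro j
    induction j with
    | zero =>
      rw [Nat.add_zero, hs0, hr]
      push_cast
      rfl
    | succ j ih =>
      rw [← Nat.add_assoc, Finset.sum_range_succ, mul_add, hb2 j]
      have h1 := rem_succ N g h r hgh j
      have h2 : (N : ℤ) ^ (n + j + 1) * rem N g h r (j + 1) = (N : ℤ) ^ (n + j) * (N * rem N g h r (j + 1)) := by ring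
      rw [h2, h1]
      linear_combination ih
  refine ⟨b, hb1, fun k => ?_⟩
  rcases le_total n k with hk | hk
  · obtain ⟨j, rfl⟩ := Nat.exists_eq_add_of_le hk
    rw [hbig j]
    exact dvd_mul_right _ _
  · obtain ⟨j, hj⟩ := Nat.exists_eq_add_of_le hk
    have h1 : (N : ℤ) ^ k ∣ g * ∑ i ∈ range n, ((b i : ℕ) : ℤ) * (N : ℤ) ^ i - f := by
      have := hbig 0
      rw [Nat.add_zero] at this
      rw [this]
      exact Dvd.dvd.mul_right (pow_dvd_pow _ hk) _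
    have h2 : ∑ i ∈ range n, ((b i : ℕ) : ℤ) * (N : ℤ) ^ i = ∑ i ∈ range k, ((b i : ℕ) : ℤ) * (N : ℤ) ^ i
        + ∑ i ∈ range j, ((b (k + i) : ℕ) : ℤ) * (N : ℤ) ^ (k + i) := by
      rw [hj, Finset.sum_range_add]
    have h3 : (N : ℤ) ^ k ∣ ∑ i ∈ range j, ((b (k + i) : ℕ) : ℤ) * (N : ℤ) ^ (k + i) := by
      apply Finset.dvd_sum
      intro i _
      exact Dvd.dvd.mul_left (pow_dvd_pow _ (by omega)) _
    have h4 : g * ∑ i ∈ range k, ((b i : ℕ) : ℤ) * (N : ℤ) ^ i - f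
        = (g * ∑ i ∈ range n, ((b i : ℕ) : ℤ) * (N : ℤ) ^ i - f)
          - g * ∑ i ∈ range j, ((b (k + i) : ℕ) : ℤ) * (N : ℤ) ^ (k + i) := by
      rw [h2]; ring
    rw [h4]
    exact dvd_sub h1 (Dvd.dvd.mul_left h3 g)

end Pool.Agent.K9h72.NA
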