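import Pool.Agent.K9h72.NA.Sieve

/-! Small vectors in the lattice `{(u, g) : M ∣ α g - u}`. -/

set_option autoImplicit false

namespace Pool.Agent.K9h72.NA

open Finset

/-- sup norms of nonzero vectors of the lattice -/
def NormSet (M α : ℕ) : Set ℕ :=
  {m | ∃ u g : ℤ, (u, g) ≠ (0, 0) ∧ (M : ℤ) ∣ (α : ℤ) * g - u ∧ m = max u.natAbs g.natAbs}

/-- sizes of admissible fractions -/
def Sizes (N M α : ℕ) : Set ℕ :=
  {m | ∃ f g : ℤ, 0 < g ∧ IsCoprime f g ∧ IsCoprime g (N : ℤ) ∧ (M : ℤ) ∣ g * (α : ℤ) - f ∧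
    m = max f.natAbs g.natAbs}

noncomputable def mu (M α : ℕ) : ℕ := sInf (NormSet M α)

noncomputable def size (N M α : ℕ) : ℕ := sInf (Sizes N M α)

lemma NormSet_nonempty (M α : ℕ) : (NormSet M α).Nonempty := by
  refine ⟨_, (α : ℤ), 1, ?_, ?_, rfl⟩
  · intro h
    have := (Prod.mk.injEq _ _ _ _ ▸ h : (α : ℤ) = 0 ∧ (1 : ℤ) = 0)
    omega
  · simp

lemma Sizes_nonempty (N M α : ℕ) : (Sizes N M α).Nonempty := by
  refine ⟨_, (α : ℤ), 1, by norm_num, isCoprime_one_right, isCoprime_one_left, ?_, rfl⟩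
  simp

lemma mu_mem (M α : ℕ) : mu M α ∈ NormSet M α := Nat.sInf_mem (NormSet_nonempty M α)

lemma size_mem (N M α : ℕ) : size N M α ∈ Sizes N M α := Nat.sInf_mem (Sizes_nonempty N M α)

lemma mu_pos (M α : ℕ) : 1 ≤ mu M α := by
  obtain ⟨u, g, h, _, hm⟩ := mu_mem M α
  rw [hm]
  by_contra hc
  push Not at hc
  have h1 : u.natAbs = 0 := by omega
  have h2 : g.natAbs = 0 := by omega
  exact h (by rw [Int.natAbs_eq_zero.1 h1, Int.natAbs_eq_zero.1 h2])

lemma size_pos (N M α : ℕ) : 1 ≤ size N M α := by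
  obtain ⟨f, g, h0, _, _, _, hm⟩ := size_mem N M α
  rw [hm]
  have : 1 ≤ g.natAbs := by omega
  omega

lemma mu_le (M α : ℕ) (u g : ℤ) (h : (u, g) ≠ (0, 0)) (hd : (M : ℤ) ∣ (α : ℤ) * g - u) :
    mu M α ≤ max u.natAbs g.natAbs := Nat.sInf_le ⟨u, g, h, hd, rfl⟩

/-- reduce an integer modulo another one -/
lemma exists_small_shift (u v : ℤ) (hv : v ≠ 0) : ∃ t : ℤ, 2 * |u + t * v| ≤ |v| := by
  refine ⟨-(round ((u : ℚ) / v)), ?_⟩
  have hv' : (v : ℚ) ≠ 0 := by exact_mod_cast hv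
  have h := abs_sub_round ((u : ℚ) / v)
  have h2 : |(u : ℚ) - round ((u : ℚ) / v) * v| ≤ |(v : ℚ)| / 2 := by
    have : (u : ℚ) - round ((u : ℚ) / v) * v = ((u : ℚ) / v - round ((u : ℚ) / v)) * v := by
      field_simp
    rw [this, abs_mul]
    nlinarith [abs_nonneg (v : ℚ)]
  have h3 : 2 * |(u : ℚ) + (-(round ((u : ℚ) / v)) : ℤ) * v| ≤ |(v : ℚ)| := by
    push_cast
    have : (u : ℚ) + -(round ((u : ℚ) / v) : ℚ) * v = (u : ℚ) - round ((u : ℚ) / v) * v := by ring
    rw [this]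
    linarith
  exact_mod_cast h3

/-- a second basis vector -/
lemma second_vector (M α : ℕ) (hM : 1 ≤ M) :
    ∃ u₁ g₁ u₂ g₂ k₁ k₂ : ℤ, max u₁.natAbs g₁.natAbs = mu M α ∧
      u₁ = α * g₁ + M * k₁ ∧ u₂ = α * g₂ + M * k₂ ∧ g₁ * k₂ - k₁ * g₂ = 1 ∧
      (max u₂.natAbs g₂.natAbs) * mu M α ≤ 2 * M ∧ (mu M α) * (mu M α) ≤ 2 * M := by
  obtain ⟨u₁, g₁, hne, ⟨k₁', hk₁'⟩, hm⟩ := mu_mem M α
  set m := mu M α with hmdef
  have hm1 : 1 ≤ m := mu_pos M α
  obtain ⟨k₁, hk₁⟩ : ∃ k₁ : ℤ, u₁ = α * g₁ + M * k₁ := ⟨-k₁', by linarith⟩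
  have hcop : IsCoprime g₁ k₁ := by
    rw [Int.isCoprime_iff_gcd_eq_one]
    by_contra hd
    set d : ℕ := Int.gcd g₁ k₁ with hddef
    have hd0 : d ≠ 0 := by
      intro h0
      rw [hddef, Int.gcd_eq_zero_iff] at h0
      apply hne
      rw [hk₁, h0.1, h0.2]; simp
    have hd2 : 2 ≤ d := by omega
    obtain ⟨g', hg'⟩ : (d : ℤ) ∣ g₁ := Int.gcd_dvd_left g₁ k₁
    obtain ⟨k', hk'⟩ : (d : ℤ) ∣ k₁ := Int.gcd_dvd_right g₁ k₁
    have hu' : u₁ = d * (α * g' + M * k') := by rw [hk₁, hg', hk']; ring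
    have h1 : mu M α ≤ max (α * g' + M * k' : ℤ).natAbs g'.natAbs := by
      apply mu_le
      · intro h
        have h' : (α * g' + M * k' : ℤ) = 0 ∧ g' = 0 := by simpa [Prod.mk.injEq] using h
        apply hne
        rw [hu', hg', h'.1, h'.2]; simp
      · exact ⟨-k', by ring⟩
    rw [← hmdef] at h1
    have h2 : u₁.natAbs = d * (α * g' + M * k' : ℤ).natAbs := by
      rw [hu', Int.natAbs_mul, Int.natAbs_natCast]
    have h3 : g₁.natAbs = d * g'.natAbs := by
      rw [hg', Int.natAbs_mul, Int.natAbs_natCast]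
    have h4 : m = d * max (α * g' + M * k' : ℤ).natAbs g'.natAbs := by
      rw [hm, h2, h3, Nat.mul_max_mul_left]
    have h5 : 1 ≤ max (α * g' + M * k' : ℤ).natAbs g'.natAbs := le_trans hm1 h1
    nlinarith
  obtain ⟨a, b, hab⟩ := hcop
  -- a * g₁ + b * k₁ = 1
  have hmz : (m : ℤ) = max |u₁| |g₁| := by
    rw [hm]; push_cast; simp
  have hmpos : (0 : ℤ) < m := by exact_mod_cast hm1
  -- choose shift
  have key : ∃ u₂ g₂ k₂ : ℤ, u₂ = α * g₂ + M * k₂ ∧ g₁ * k₂ - k₁ * g₂ = 1 ∧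
      |u₂| * m ≤ M + m * m / 2 ∧ |g₂| * m ≤ M + m * m / 2 := by
    have hdet : ∀ t : ℤ, u₁ * (-b + t * g₁) - (α * (-b + t * g₁) + M * (a + t * k₁)) * g₁ = -M := by
      intro t
      rw [hk₁]
      linear_combination (-(M : ℤ)) * hab
    have hone : ∀ t : ℤ, g₁ * (a + t * k₁) - k₁ * (-b + t * g₁) = 1 := by
      intro t; linear_combination hab
    rcases le_total |g₁| |u₁| with hle | hle
    · have hmu : (m : ℤ) = |u₁| := by rw [hmz, max_eq_left hle]
      have hu0 : u₁ ≠ 0 := by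
        intro h0; rw [h0, abs_zero] at hmu; omega
      obtain ⟨t, ht⟩ := exists_small_shift (α * (-b) + M * a) u₁ hu0
      refine ⟨α * (-b + t * g₁) + M * (a + t * k₁), -b + t * g₁, a + t * k₁, rfl, hone t, ?_⟩
      have hu₂ : α * (-b + t * g₁) + M * (a + t * k₁) = α * (-b) + M * a + t * u₁ := by
        rw [hk₁]; ring
      have hd := hdet t
      rw [hu₂] at hd ⊢
      set U := α * (-b) + M * a + t * u₁ with hU
      set G := -b + t * g₁ with hG
      rw [← hmu] at ht hle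
      have h1 : |G| * m = |U * g₁ - M| := by
        rw [hmu, ← abs_mul]
        congr 1
        linarith
      have h2 : |U * g₁ - M| ≤ |U| * |g₁| + M := by
        have := abs_sub (U * g₁) (M : ℤ)
        rw [abs_mul, abs_of_nonneg (show (0 : ℤ) ≤ M by positivity)] at this
        exact this
      have hMz : (0 : ℤ) ≤ M := by positivity
      constructor
      · have : |U| * m ≤ m * m / 2 := by
          rw [Int.le_ediv_iff_mul_le (by norm_num)]
          nlinarith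
        omega
      · rw [h1]
        refine h2.trans ?_
        have : |U| * |g₁| ≤ m * m / 2 := by
          rw [Int.le_ediv_iff_mul_le (by norm_num)]
          nlinarith [abs_nonneg U, abs_nonneg g₁]
        omega
    · have hmu : (m : ℤ) = |g₁| := by rw [hmz, max_eq_right hle]
      have hu0 : g₁ ≠ 0 := by
        intro h0; rw [h0, abs_zero] at hmu; omega
      obtain ⟨t, ht⟩ := exists_small_shift (-b) g₁ hu0
      refine ⟨α * (-b + t * g₁) + M * (a + t * k₁), -b + t * g₁, a + t * k₁, rfl, hone t, ?_⟩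
      have hd := hdet t
      set U := α * (-b + t * g₁) + M * (a + t * k₁) with hU
      set G := -b + t * g₁ with hG
      rw [← hmu] at ht hle
      have h1 : |U| * m = |u₁ * G + M| := by
        rw [hmu, ← abs_mul]
        congr 1
        linarith
      have h2 : |u₁ * G + M| ≤ |u₁| * |G| + M := by
        have := abs_add_le (u₁ * G) (M : ℤ)
        rw [abs_mul, abs_of_nonneg (show (0 : ℤ) ≤ M by positivity)] at this
        exact this
      have hMz : (0 : ℤ) ≤ M := by positivity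
      constructor
      · rw [h1]
        refine h2.trans ?_
        have : |u₁| * |G| ≤ m * m / 2 := by
          rw [Int.le_ediv_iff_mul_le (by norm_num)]
          nlinarith [abs_nonneg G, abs_nonneg u₁]
        omega
      · have : |G| * m ≤ m * m / 2 := by
          rw [Int.le_ediv_iff_mul_le (by norm_num)]
          nlinarith
        omega
  obtain ⟨u₂, g₂, k₂, h1, h2, h3, h4⟩ := key
  have h5 : (u₂, g₂) ≠ (0, 0) := by
    intro h
    have h' : u₂ = 0 ∧ g₂ = 0 := by simpa [Prod.mk.injEq] using h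
    rw [h'.1, h'.2] at h1
    have hk20 : k₂ = 0 := by
      have : (M : ℤ) * k₂ = 0 := by linarith
      rcases mul_eq_zero.1 this with h | h
      · omega
      · exact h
    rw [hk20, h'.2] at h2
    simp at h2
  have h6 : m ≤ max u₂.natAbs g₂.natAbs := mu_le M α u₂ g₂ h5 ⟨-k₂, by rw [h1]; ring⟩
  have h7 : ((max u₂.natAbs g₂.natAbs : ℕ) : ℤ) * m ≤ M + m * m / 2 := by
    have : ((max u₂.natAbs g₂.natAbs : ℕ) : ℤ) = max |u₂| |g₂| := by push_cast; simp
    rw [this]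
    rcases le_total |u₂| |g₂| with h | h
    · rw [max_eq_right h]; exact h4
    · rw [max_eq_left h]; exact h3
  have h8 : (m : ℤ) * m ≤ 2 * M := by
    have h6' : (m : ℤ) ≤ ((max u₂.natAbs g₂.natAbs : ℕ) : ℤ) := by exact_mod_cast h6
    have : (m : ℤ) * m ≤ ((max u₂.natAbs g₂.natAbs : ℕ) : ℤ) * m := by nlinarith
    omega
  refine ⟨u₁, g₁, u₂, g₂, k₁, k₂, hm.symm, hk₁, h1, h2, ?_, by exact_mod_cast h8⟩
  have : ((max u₂.natAbs g₂.natAbs : ℕ) : ℤ) * m ≤ 2 * M := by omega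
  exact_mod_cast this

/-- The main inequality. -/
theorem size_mul_mu_le (N n α : ℕ) (hN : 2 ≤ N) :
    size N (N ^ n) α * mu (N ^ n) α ≤ 2 * ((N.primeFactors.card + 1) * 2 ^ N.primeFactors.card) * N ^ n := by
  classical
  have hM : 1 ≤ N ^ n := Nat.one_le_pow _ _ (by omega)
  obtain ⟨u₁, g₁, u₂, g₂, k₁, k₂, hmu, hu1, hu2, hdet, hsz, hmm⟩ := second_vector (N ^ n) α hM
  -- the residues to be avoided
  have hr : ∀ p ∈ N.primeFactors, ∃ r : ℤ, ∀ c : ℤ, (p : ℤ) ∣ g₂ + c * g₁ → (p : ℤ) ∣ c - r := by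
    intro p hp
    have hpp : p.Prime := Nat.prime_of_mem_primeFactors hp
    by_cases h1 : (p : ℤ) ∣ g₁
    · refine ⟨0, fun c hc => ?_⟩
      exfalso
      have h2 : (p : ℤ) ∣ g₂ := by
        have := Dvd.dvd.mul_left h1 c
        exact (Int.dvd_iff_dvd_of_dvd_add hc).2 this
      have h3 : (p : ℤ) ∣ 1 := by
        rw [← hdet]
        exact dvd_sub (Dvd.dvd.mul_right h1 k₂) (Dvd.dvd.mul_left h2 k₁)
      have h4 := Int.natCast_dvd_natCast.1 (by exact_mod_cast h3 : (p : ℤ) ∣ ((1 : ℕ) : ℤ))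
      exact hpp.one_lt.ne' (Nat.dvd_one.1 h4)
    · have hcop : IsCoprime (p : ℤ) g₁ := by
        rw [Int.isCoprime_iff_gcd_eq_one]
        have := (Nat.Prime.coprime_iff_not_dvd hpp (n := g₁.natAbs)).2 (by
          intro h; exact h1 (Int.natCast_dvd.2 h))
        exact this
      obtain ⟨x, y, hxy⟩ := hcop
      -- x p + y g₁ = 1
      refine ⟨-(y * g₂), fun c hc => ?_⟩
      obtain ⟨w, hw⟩ := hc
      refine ⟨y * w + x * c, ?_⟩
      linear_combination y * hw - c * hxy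
  choose! r hr using hr
  obtain ⟨c, hc1, hc2⟩ := exists_surv N.primeFactors (fun p hp => Nat.prime_of_mem_primeFactors hp) r
  set W := (N.primeFactors.card + 1) * 2 ^ N.primeFactors.card with hW
  set f : ℤ := u₂ + c * u₁ with hf
  set g : ℤ := g₂ + c * g₁ with hg
  have hgN : IsCoprime g (N : ℤ) := by
    rw [Int.isCoprime_iff_gcd_eq_one]
    have h1 : Nat.Coprime g.natAbs N := by
      apply Nat.Coprime.symm
      apply Nat.coprime_of_dvd
      intro p hp hpN hpg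
      have hpm : p ∈ N.primeFactors := Nat.mem_primeFactors.2 ⟨hp, hpN, by omega⟩
      exact hc2 p hpm (hr p hpm c (Int.natCast_dvd.2 hpg))
    exact h1
  have hg0 : g ≠ 0 := by
    intro h0
    rw [h0] at hgN
    rw [isCoprime_zero_left] at hgN
    have := Int.isUnit_iff.1 hgN
    omega
  -- reduce to lowest terms
  set d : ℕ := Int.gcd f g with hd
  have hd0 : 0 < d := Int.gcd_pos_of_ne_zero_right _ hg0
  obtain ⟨g', hg'⟩ : (d : ℤ) ∣ g := Int.gcd_dvd_right f g
  obtain ⟨f', hf'⟩ : (d : ℤ) ∣ f := Int.gcd_dvd_left f g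
  have hcop' : IsCoprime f' g' := by
    rw [Int.isCoprime_iff_gcd_eq_one]
    have h1 : Int.gcd ((d : ℤ) * f') ((d : ℤ) * g') = d * Int.gcd f' g' := by
      rw [Int.gcd_mul_left]; simp
    rw [← hf', ← hg', ← hd] at h1
    have : d * 1 = d * Int.gcd f' g' := by omega
    exact (Nat.eq_of_mul_eq_mul_left hd0 this).symm
  have hg'N : IsCoprime g' (N : ℤ) := by
    rw [hg'] at hgN
    exact IsCoprime.of_mul_left_right hgN
  have hdN : IsCoprime (d : ℤ) (N : ℤ) := by
    rw [hg'] at hgN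
    exact IsCoprime.of_mul_left_left hgN
  have hdvd : ((N ^ n : ℕ) : ℤ) ∣ g * (α : ℤ) - f := by
    refine ⟨-(k₂ + c * k₁), ?_⟩
    rw [hf, hg, hu1, hu2]
    ring
  have hdvd' : ((N ^ n : ℕ) : ℤ) ∣ g' * (α : ℤ) - f' := by
    have h1 : ((N ^ n : ℕ) : ℤ) ∣ (d : ℤ) * (g' * (α : ℤ) - f') := by
      have : (d : ℤ) * (g' * (α : ℤ) - f') = g * (α : ℤ) - f := by rw [hg', hf']; ring
      rw [this]; exact hdvd
    have h2 : IsCoprime ((N ^ n : ℕ) : ℤ) (d : ℤ) := by
      push_cast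
      exact (IsCoprime.pow_left hdN.symm)
    exact h2.dvd_of_dvd_mul_left h1
  have hg'0 : g' ≠ 0 := by
    rintro rfl; exact hg0 (by rw [hg']; simp)
  have hle : size N (N ^ n) α ≤ max f'.natAbs g'.natAbs := by
    rcases lt_or_gt_of_ne hg'0 with h | h
    · apply Nat.sInf_le
      refine ⟨-f', -g', by linarith, hcop'.neg_neg, hg'N.neg_left, ?_, by simp⟩
      have : -g' * (α : ℤ) - -f' = -(g' * (α : ℤ) - f') := by ring
      rw [this]
      exact (dvd_neg).2 hdvd'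
    · apply Nat.sInf_le
      exact ⟨f', g', h, hcop', hg'N, hdvd', rfl⟩
  have hle2 : max f'.natAbs g'.natAbs ≤ max f.natAbs g.natAbs := by
    apply max_le_max
    · rw [hf', Int.natAbs_mul, Int.natAbs_natCast]
      exact Nat.le_mul_of_pos_left _ hd0
    · rw [hg', Int.natAbs_mul, Int.natAbs_natCast]
      exact Nat.le_mul_of_pos_left _ hd0
  have hle3 : max f.natAbs g.natAbs ≤ max u₂.natAbs g₂.natAbs + c * max u₁.natAbs g₁.natAbs := by
    apply max_le
    · calc f.natAbs ≤ u₂.natAbs + (c * u₁ : ℤ).natAbs := Int.natAbs_add_le _ _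
        _ = u₂.natAbs + c * u₁.natAbs := by rw [Int.natAbs_mul, Int.natAbs_natCast]
        _ ≤ _ := by
          gcongr
          · exact le_max_left _ _
          · exact le_max_left _ _
    · calc g.natAbs ≤ g₂.natAbs + (c * g₁ : ℤ).natAbs := Int.natAbs_add_le _ _
        _ = g₂.natAbs + c * g₁.natAbs := by rw [Int.natAbs_mul, Int.natAbs_natCast]
        _ ≤ _ := by
          gcongr
          · exact le_max_right _ _
          · exact le_max_right _ _
  rw [hmu] at hle3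
  calc size N (N ^ n) α * mu (N ^ n) α
      ≤ (max u₂.natAbs g₂.natAbs + c * mu (N ^ n) α) * mu (N ^ n) α := by
        gcongr
        exact hle.trans (hle2.trans hle3)
    _ = max u₂.natAbs g₂.natAbs * mu (N ^ n) α + c * (mu (N ^ n) α * mu (N ^ n) α) := by ring
    _ ≤ 2 * N ^ n + c * (2 * N ^ n) := by gcongr
    _ = 2 * (c + 1) * N ^ n := by ring
    _ ≤ 2 * W * N ^ n := by
        gcongr
        omega

end Pool.Agent.K9h72.NA
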