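import Mathlib

/-! Sieve lemma: integers avoiding one residue class modulo each prime of a finite set. -/

set_option autoImplicit false

namespace Pool.Agent.K9h72.NA

open Finset

/-- survivors -/
def surv (P : Finset ℕ) (r : ℕ → ℤ) (X : ℕ) : Finset ℕ :=
  (range X).filter (fun x => ∀ p ∈ P, ¬ ((p : ℤ) ∣ (x : ℤ) - r p))

lemma prod_nonneg' (P : Finset ℕ) (hP : ∀ p ∈ P, p.Prime) :
    0 ≤ ∏ p ∈ P, (1 - 1 / (p : ℝ)) := by
  apply Finset.prod_nonneg
  intro p hp
  have : (1 : ℝ) ≤ p := by exact_mod_cast (hP p hp).one_le
  have : 1 / (p : ℝ) ≤ 1 := by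
    rw [div_le_one (by linarith)]; exact this
  linarith

lemma prod_le_one' (P : Finset ℕ) (hP : ∀ p ∈ P, p.Prime) :
    ∏ p ∈ P, (1 - 1 / (p : ℝ)) ≤ 1 := by
  apply Finset.prod_le_one
  · intro p hp
    have : (1 : ℝ) ≤ p := by exact_mod_cast (hP p hp).one_le
    have : 1 / (p : ℝ) ≤ 1 := by
      rw [div_le_one (by linarith)]; exact this
    linarith
  · intro p hp
    have : (0 : ℝ) ≤ 1 / (p : ℝ) := by positivity
    linarith

theorem sieve (P : Finset ℕ) : (∀ p ∈ P, p.Prime) → ∀ (r : ℕ → ℤ) (X : ℕ),
    |((surv P r X).card : ℝ) - X * ∏ p ∈ P, (1 - 1 / (p : ℝ))| ≤ 2 ^ P.card - 1 := by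
  induction P using Finset.induction_on with
  | empty =>
    intro _ r X
    simp [surv]
  | insert a s ha ih =>
    intro hP r X
    have hPs : ∀ p ∈ s, p.Prime := fun p hp => hP p (mem_insert_of_mem hp)
    have hpa : a.Prime := hP a (mem_insert_self _ _)
    have ha0 : 0 < a := hpa.pos
    have ih1 := ih hPs r X
    -- the class of r a
    set x0 : ℕ := ((r a) % (a : ℤ)).toNat with hx0
    have hx0' : (x0 : ℤ) = (r a) % (a : ℤ) := by
      rw [hx0, Int.toNat_of_nonneg (Int.emod_nonneg _ (by exact_mod_cast hpa.ne_zero))]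
    have hx0lt : x0 < a := by
      have := Int.emod_lt_of_pos (r a) (show (0 : ℤ) < a by exact_mod_cast ha0)
      omega
    have hx0d : (a : ℤ) ∣ (x0 : ℤ) - r a := by
      rw [hx0']
      have h2 := Int.emod_add_mul_ediv (r a) a
      exact ⟨-(r a / a), by linarith⟩
    set X' : ℕ := (X + a - 1 - x0) / a with hX'
    have hinv : ∀ p ∈ s, ∃ b : ℤ, (p : ℤ) ∣ a * b - 1 := by
      intro p hp
      have hne : p ≠ a := fun h => ha (h ▸ hp)
      have hco : Nat.Coprime p a := (Nat.coprime_primes (hPs p hp) hpa).2 hne
      have := Int.gcd_eq_gcd_ab (p : ℤ) (a : ℤ)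
      have h1 : Int.gcd (p : ℤ) (a : ℤ) = 1 := by
        simpa [Int.gcd_natCast_natCast] using hco
      rw [h1] at this
      refine ⟨Int.gcdB p a, ⟨-(Int.gcdA p a), ?_⟩⟩
      push_cast at this
      linarith
    choose! b hb using hinv
    set r' : ℕ → ℤ := fun p => (r p - x0) * b p with hr'
    have ih2 := ih hPs r' X'
    -- card relation
    have hsplit : (surv (insert a s) r X).card + (surv s r' X').card = (surv s r X).card := by
      have h1 : surv (insert a s) r X = (surv s r X).filter (fun x : ℕ => ¬ ((a : ℤ) ∣ (x : ℤ) - r a)) := by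
        ext x
        simp only [surv, mem_filter, mem_range, mem_insert, forall_eq_or_imp]
        tauto
      have h2 : (surv s r' X').card = ((surv s r X).filter (fun x : ℕ => ((a : ℤ) ∣ (x : ℤ) - r a))).card := by
        apply Finset.card_bij (fun y _ => x0 + a * y)
        · intro y hy
          simp only [surv, mem_filter, mem_range] at hy ⊢
          obtain ⟨hy1, hy2⟩ := hy
          refine ⟨⟨?_, ?_⟩, ?_⟩
          · rw [hX', Nat.lt_div_iff_mul_lt ha0] at hy1
            rw [mul_comm] 
            omega
          · intro p hp hdiv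
            apply hy2 p hp
            have h3 := hb p hp
            rw [hr']
            -- p | x0 + a y - r p, want p | y - (r p - x0) b
            obtain ⟨u, hu⟩ := hdiv
            obtain ⟨v, hv⟩ := h3
            push_cast at hu
            refine ⟨b p * u - v * y, ?_⟩
            have : (a : ℤ) * b p = 1 + p * v := by linarith
            have h4 : (r p : ℤ) - x0 = a * y - p * u := by linarith
            calc (y : ℤ) - (r p - x0) * b p = y - (a * y - p * u) * b p := by rw [h4]
              _ = y - y * (a * b p) + p * u * b p := by ring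
              _ = y - y * (1 + p * v) + p * u * b p := by rw [this]
              _ = p * (b p * u - v * y) := by ring
          · push_cast
            obtain ⟨u, hu⟩ := hx0d
            exact ⟨u + y, by linarith⟩
        · intro y1 _ y2 _ h
          have : a * y1 = a * y2 := by omega
          exact Nat.eq_of_mul_eq_mul_left ha0 this
        · intro x hx
          simp only [surv, mem_filter, mem_range] at hx
          obtain ⟨⟨hx1, hx2⟩, hx3⟩ := hx
          have hd : (a : ℤ) ∣ (x : ℤ) - x0 := by
            obtain ⟨u, hu⟩ := hx3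
            obtain ⟨v, hv⟩ := hx0d
            exact ⟨u - v, by linarith⟩
          have hxx0 : x0 ≤ x := by
            by_contra hlt
            push Not at hlt
            obtain ⟨u, hu⟩ := hd
            have h1 : (x : ℤ) - x0 < 0 := by omega
            have h2 : -(a : ℤ) < (x : ℤ) - x0 := by omega
            rw [hu] at h1 h2
            have ha0' : (0 : ℤ) < a := by exact_mod_cast ha0
            have h3 : u < 0 := by
              by_contra h
              push Not at h
              have := mul_nonneg ha0'.le h
              linarith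
            have h4 : -1 < u := by
              by_contra h
              push Not at h
              nlinarith
            omega
          obtain ⟨y, hy⟩ : ∃ y : ℕ, x = x0 + a * y := by
            have : (a : ℤ) ∣ ((x - x0 : ℕ) : ℤ) := by
              rw [Nat.cast_sub hxx0]; exact hd
            have := Int.natCast_dvd_natCast.1 this
            obtain ⟨y, hy⟩ := this
            exact ⟨y, by omega⟩
          refine ⟨y, ?_, hy.symm⟩
          simp only [surv, mem_filter, mem_range]
          refine ⟨?_, ?_⟩
          · rw [hX', Nat.lt_div_iff_mul_lt ha0]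
            rw [mul_comm]
            omega
          · intro p hp hdiv
            apply hx2 p hp
            obtain ⟨u, hu⟩ := hdiv
            obtain ⟨v, hv⟩ := hb p hp
            rw [hr'] at hu
            simp only at hu
            rw [hy]
            push_cast
            refine ⟨a * u + v * (r p - x0), ?_⟩
            have : (a : ℤ) * b p = 1 + p * v := by linarith
            have h4 : (y : ℤ) = p * u + (r p - x0) * b p := by linarith
            calc (x0 : ℤ) + a * y - r p = x0 - r p + a * (p * u + (r p - x0) * b p) := by rw [h4]; ring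
              _ = x0 - r p + a * p * u + (r p - x0) * (a * b p) := by ring
              _ = x0 - r p + a * p * u + (r p - x0) * (1 + p * v) := by rw [this]
              _ = p * (a * u + v * (r p - x0)) := by ring
      rw [h1, h2, add_comm]
      exact Finset.card_filter_add_card_filter_not (s := surv s r X) (fun x : ℕ => ((a : ℤ) ∣ (x : ℤ) - r a))
    have hX'1 : |(X' : ℝ) - X / a| ≤ 1 := by
      have ha0' : (0 : ℝ) < a := by exact_mod_cast ha0
      have h1 : X' * a ≤ X + a - 1 - x0 := Nat.div_mul_le_self _ _
      have h2 : X + a - 1 - x0 < (X' + 1) * a := by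
        rw [hX', mul_comm]
        exact Nat.lt_mul_div_succ _ ha0
      rw [abs_le]
      constructor
      · have h3 : X ≤ (X' + 1) * a := by
          have : X + a - 1 - x0 + 1 ≤ (X' + 1) * a := h2
          omega
        have h3' : (X : ℝ) ≤ (X' + 1) * a := by exact_mod_cast h3
        have : (X : ℝ) / a ≤ X' + 1 := by
          rw [div_le_iff₀ ha0']; exact h3'
        linarith
      · have h3 : X' * a ≤ X + a := by omega
        have h3' : (X' : ℝ) * a ≤ X + a := by exact_mod_cast h3
        have : (X' : ℝ) ≤ X / a + 1 := by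
          rw [← sub_le_iff_le_add, le_div_iff₀ ha0']
          linarith
        linarith
    have hcast : ((surv (insert a s) r X).card : ℝ) = (surv s r X).card - (surv s r' X').card := by
      have : (((surv (insert a s) r X).card + (surv s r' X').card : ℕ) : ℝ) = (surv s r X).card := by
        exact_mod_cast hsplit
      push_cast at this
      linarith
    rw [prod_insert ha, card_insert_of_notMem ha, hcast]
    set Q : ℝ := ∏ p ∈ s, (1 - 1 / (p : ℝ)) with hQ
    have hQ0 : 0 ≤ Q := prod_nonneg' s hPs
    have hQ1 : Q ≤ 1 := prod_le_one' s hPs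
    have e : ((surv s r X).card : ℝ) - (surv s r' X').card - X * ((1 - 1 / (a : ℝ)) * Q)
        = (((surv s r X).card : ℝ) - X * Q) - (((surv s r' X').card : ℝ) - X' * Q)
          - (X' - X / a) * Q := by ring
    rw [e]
    have h5 : |(X' - X / a) * Q| ≤ 1 := by
      rw [abs_mul, abs_of_nonneg hQ0]
      calc |(X' : ℝ) - X / a| * Q ≤ 1 * 1 := by
            apply mul_le_mul hX'1 hQ1 hQ0 (by norm_num)
        _ = 1 := by norm_num
    calc _ ≤ |((surv s r X).card : ℝ) - X * Q| + |((surv s r' X').card : ℝ) - X' * Q| + |(X' - X / a) * Q| := by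
          refine (abs_sub _ _).trans ?_
          gcongr
          exact abs_sub _ _
      _ ≤ (2 ^ s.card - 1) + (2 ^ s.card - 1) + 1 := by gcongr
      _ = 2 ^ (s.card + 1) - 1 := by ring

/-- product over distinct integers at least two -/
lemma prod_lower (P : Finset ℕ) : (∀ p ∈ P, 2 ≤ p) →
    1 / ((P.card : ℝ) + 1) ≤ ∏ p ∈ P, (1 - 1 / (p : ℝ)) := by
  induction P using Finset.induction_on_max with
  | empty => intro _; simp
  | insert a s has ih =>
    intro hP
    have hs : ∀ p ∈ s, 2 ≤ p := fun p hp => hP p (mem_insert_of_mem hp)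
    have ha : a ∉ s := fun h => lt_irrefl _ (has a h)
    rw [prod_insert ha, card_insert_of_notMem ha]
    have hcard : s.card + 2 ≤ a := by
      have hsub : s ⊆ Finset.Ico 2 a := fun x hx => by
        rw [Finset.mem_Ico]; exact ⟨hs x hx, has x hx⟩
      have := Finset.card_le_card hsub
      have h2 : 2 ≤ a := hP a (mem_insert_self _ _)
      rw [Nat.card_Ico] at this
      omega
    have ih' := ih hs
    have hc : ((s.card : ℝ) + 2) ≤ a := by exact_mod_cast hcard
    have hapos : (0 : ℝ) < a := by
      have : (0 : ℝ) ≤ s.card := by positivity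
      linarith
    have h1 : (1 : ℝ) - 1 / ((s.card : ℝ) + 2) ≤ 1 - 1 / (a : ℝ) := by
      have : 1 / (a : ℝ) ≤ 1 / ((s.card : ℝ) + 2) := one_div_le_one_div_of_le (by positivity) hc
      linarith
    have h0 : (0 : ℝ) ≤ 1 - 1 / ((s.card : ℝ) + 2) := by
      rw [sub_nonneg, div_le_one (by positivity)]
      have : (0 : ℝ) ≤ s.card := by positivity
      linarith
    calc 1 / (((s.card + 1 : ℕ) : ℝ) + 1) = (1 - 1 / ((s.card : ℝ) + 2)) * (1 / ((s.card : ℝ) + 1)) := by
          push_cast
          field_simp
          ring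
      _ ≤ (1 - 1 / (a : ℝ)) * ∏ p ∈ s, (1 - 1 / (p : ℝ)) := by
          apply mul_le_mul h1 ih' (by positivity) (h0.trans h1)

theorem exists_surv (P : Finset ℕ) (hP : ∀ p ∈ P, p.Prime) (r : ℕ → ℤ) :
    ∃ x : ℕ, x < (P.card + 1) * 2 ^ P.card ∧ ∀ p ∈ P, ¬ ((p : ℤ) ∣ (x : ℤ) - r p) := by
  set X := (P.card + 1) * 2 ^ P.card with hX
  have h1 := sieve P hP r X
  have h2 := prod_lower P (fun p hp => (hP p hp).two_le)
  have h3 : (2 : ℝ) ^ P.card ≤ X * ∏ p ∈ P, (1 - 1 / (p : ℝ)) := by
    have : (X : ℝ) = ((P.card : ℝ) + 1) * 2 ^ P.card := by rw [hX]; push_cast; ring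
    calc (2 : ℝ) ^ P.card = X * (1 / ((P.card : ℝ) + 1)) := by
          rw [this]; field_simp
      _ ≤ _ := by gcongr
  have h4 : (0 : ℝ) < (surv P r X).card := by
    have := (abs_le.1 h1).1
    linarith
  have h5 : 0 < (surv P r X).card := by exact_mod_cast h4
  obtain ⟨x, hx⟩ := Finset.card_pos.1 h5
  simp only [surv, mem_filter, mem_range] at hx
  exact ⟨x, hx.1, hx.2⟩

end Pool.Agent.K9h72.NA
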